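import Pool.Agent.H99.Rains.Final

/-!
There are non-chiral data whose Rains function is strictly positive on a punctured neighbourhood
of the origin and negative somewhere.
-/

set_option autoImplicit false

open Pool.Agent.H99.Rains

theorem Pool.Agent.Results.MP_4046ef_mp.LocalNotGlobal.result :
    ∃ (n r J : ℕ) (G : Subgroup (Matrix.unitaryGroup (Fin n) ℂ))
      (e : (Fin r → ℝ) → Matrix.unitaryGroup (Fin n) ℂ) (Δ : Finset (Fin r → ℝ))
      (d : Fin J → ℕ)
      (π : ∀ j, Matrix.unitaryGroup (Fin n) ℂ → Matrix (Fin (d j)) (Fin (d j)) ℂ)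
      (w : ∀ j, Fin (d j) → Fin r → ℝ) (R : Fin J → ℝ),
      IsGaugeData G e Δ d π w R ∧ NonChiral d w ∧
      (∃ ε > 0, ∀ x, 0 < ‖x‖ → ‖x‖ < ε → 0 < Lh Δ d w R x) ∧ ∃ x, Lh Δ d w R x < 0 :=
  counterexample
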